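import Mathlib

/-!
Definitions for MP_cf29c0_an: comparison functions, forward complete control systems,
the upper right Dini derivative along trajectories, and the two forms of ISS Lyapunov functions.
-/

open Filter Topology
open scoped NNReal

namespace Pool.Agent.Lib.MP_cf29c0_an

/-- Class PD: continuous, zero at zero, positive elsewhere. -/
def IsPD (γ : ℝ≥0 → ℝ≥0) : Prop :=
  Continuous γ ∧ γ 0 = 0 ∧ ∀ r, 0 < r → 0 < γ r

/-- Class K: the strictly increasing members of PD. -/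
def IsK (γ : ℝ≥0 → ℝ≥0) : Prop :=
  IsPD γ ∧ StrictMono γ

/-- Class K-infinity: the unbounded members of K. -/
def IsKInf (γ : ℝ≥0 → ℝ≥0) : Prop :=
  IsK γ ∧ ¬ BddAbove (Set.range γ)

/-- A forward complete control system with state space `X`, input value space `U` and normed
input space `I`. The elements of `I` are functions from the half line to `U`, through the
injective linear map `fn`. Closure under concatenation is required for both conventions about
the value at the junction time. -/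
structure ControlSystem (X U I : Type) [NormedAddCommGroup X] [NormedSpace ℝ X]
    [NormedAddCommGroup U] [NormedSpace ℝ U] [NormedAddCommGroup I] [NormedSpace ℝ I] where
  /-- the function of time that an input is -/
  fn : I → ℝ≥0 → U
  fn_add : ∀ (u v : I) (s : ℝ≥0), fn (u + v) s = fn u s + fn v s
  fn_smul : ∀ (c : ℝ) (u : I) (s : ℝ≥0), fn (c • u) s = c • fn u s
  fn_injective : Function.Injective fn
  shift_mem : ∀ (u : I) (τ : ℝ≥0), ∃ v : I, (∀ s, fn v s = fn u (s + τ)) ∧ ‖v‖ ≤ ‖u‖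
  concat_mem : ∀ (u v : I) (t : ℝ≥0), 0 < t →
    ∃ w : I, ∀ s, fn w s = if s ≤ t then fn u s else fn v (s - t)
  concat_mem' : ∀ (u v : I) (t : ℝ≥0), 0 < t →
    ∃ w : I, ∀ s, fn w s = if s < t then fn u s else fn v (s - t)
  /-- the transition map -/
  φ : ℝ≥0 → X → I → X
  φ_zero : ∀ (x : X) (u : I), φ 0 x u = x
  causal : ∀ (t : ℝ≥0) (x : X) (u v : I), (∀ s, s ≤ t → fn u s = fn v s) → φ t x u = φ t x v
  continuous_φ : ∀ (x : X) (u : I), Continuous fun t => φ t x u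
  cocycle : ∀ (t h : ℝ≥0) (x : X) (u v : I), (∀ s, fn v s = fn u (t + s)) →
    φ h (φ t x u) v = φ (t + h) x u

variable {X U I : Type} [NormedAddCommGroup X] [NormedSpace ℝ X]
  [NormedAddCommGroup U] [NormedSpace ℝ U] [NormedAddCommGroup I] [NormedSpace ℝ I]

/-- The derivative of `V` along the trajectory from `x` under the input `u`: the limit superior,
in the extended reals, of `(V (φ t x u) - V x) / t` as `t` tends to `0` from the right. -/
noncomputable def ControlSystem.dini (S : ControlSystem X U I) (V : X → ℝ≥0) (u : I) (x : X) :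
    EReal :=
  limsup (fun t : ℝ≥0 => ((((V (S.φ t x u) : ℝ) - (V x : ℝ)) / (t : ℝ) : ℝ) : EReal)) (𝓝[>] 0)

/-- ISS Lyapunov function in dissipative form. -/
def ControlSystem.IsDissipativeLF (S : ControlSystem X U I) (V : X → ℝ≥0) : Prop :=
  Continuous V ∧ ∃ ψ₁ ψ₂ α σ : ℝ≥0 → ℝ≥0, IsKInf ψ₁ ∧ IsKInf ψ₂ ∧ IsKInf α ∧ IsK σ ∧
    (∀ x, ψ₁ ‖x‖₊ ≤ V x ∧ V x ≤ ψ₂ ‖x‖₊) ∧
    ∀ (x : X) (u : I), S.dini V u x ≤ ((-(α ‖x‖₊ : ℝ) + (σ ‖u‖₊ : ℝ) : ℝ) : EReal)

/-- ISS Lyapunov function in implication form. -/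
def ControlSystem.IsImplicationLF (S : ControlSystem X U I) (V : X → ℝ≥0) : Prop :=
  Continuous V ∧ ∃ ψ₁ ψ₂ χ α : ℝ≥0 → ℝ≥0, IsKInf ψ₁ ∧ IsKInf ψ₂ ∧ IsKInf χ ∧ IsPD α ∧
    (∀ x, ψ₁ ‖x‖₊ ≤ V x ∧ V x ≤ ψ₂ ‖x‖₊) ∧
    ∀ (x : X) (u : I), χ ‖u‖₊ ≤ ‖x‖₊ → S.dini V u x ≤ ((-(α ‖x‖₊ : ℝ) : ℝ) : EReal)

end Pool.Agent.Lib.MP_cf29c0_an
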