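import Pool.Agent.Lib.MP_cf29c0_an.Defs

-- part Pool.Agent.Lib.MP_cf29c0_an.System
section

/-!
The linear diagonal system `x_n' = -(n+1) x_n + (n+1) u_n` on the space of null sequences.
-/

open Filter Topology Set MeasureTheory
open scoped NNReal ENNReal

namespace Pool.Agent.Lib.MP_cf29c0_an

/-- real null sequences with the supremum norm -/
abbrev C0 : Type := ZeroAtInftyContinuousMap ℕ ℝ

lemma C0.abs_apply_le (x : C0) (n : ℕ) : |x n| ≤ ‖x‖ := by
  have := x.toBCF.norm_coe_le_norm n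
  simpa using this

lemma C0.norm_le (x : C0) {C : ℝ} (hC : 0 ≤ C) (h : ∀ n, |x n| ≤ C) : ‖x‖ ≤ C := by
  rw [← ZeroAtInftyContinuousMap.norm_toBCF_eq_norm]
  exact (BoundedContinuousFunction.norm_le hC).2 fun n => by simpa using h n

lemma C0.tendsto (x : C0) : Tendsto (fun n => x n) atTop (𝓝 0) := by
  have := zero_at_infty x
  rwa [cocompact_eq_cofinite, Nat.cofinite_eq_atTop] at this

lemma C0.tail (x : C0) {ε : ℝ} (hε : 0 < ε) : ∃ N, ∀ n, N ≤ n → |x n| ≤ ε := by
  have h := (Metric.tendsto_atTop.1 x.tendsto) ε hε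
  obtain ⟨N, hN⟩ := h
  exact ⟨N, fun n hn => by simpa [Real.dist_eq] using (hN n hn).le⟩

/-- a null sequence as an element of `C0` -/
def C0.mk0 (f : ℕ → ℝ) (h : Tendsto f atTop (𝓝 0)) : C0 where
  toFun := f
  continuous_toFun := continuous_of_discreteTopology
  zero_at_infty' := by rwa [cocompact_eq_cofinite, Nat.cofinite_eq_atTop]

@[simp] lemma C0.mk0_apply (f : ℕ → ℝ) (h : Tendsto f atTop (𝓝 0)) (n : ℕ) :
    C0.mk0 f h n = f n := rfl

/-- bounded functions of time with values in `C0` -/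
abbrev Bdd : Type := lp (fun _ : ℝ≥0 => C0) ∞

/-- admissible inputs: measurable coordinates, tails vanishing locally uniformly in time -/
def Adm (f : ℝ≥0 → C0) : Prop :=
  (∀ n, Measurable fun s => f s n) ∧
    ∀ (T : ℝ≥0) (ε : ℝ), 0 < ε → ∃ N, ∀ s, s ≤ T → ∀ n, N ≤ n → |f s n| ≤ ε

/-- the input space -/
def Inp : Submodule ℝ Bdd where
  carrier := {u | Adm u}
  zero_mem' := by
    refine ⟨fun n => ?_, fun T ε hε => ⟨0, fun s _ n _ => ?_⟩⟩
    · simp
    · simpa using hε.le
  add_mem' := by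
    rintro u v ⟨hu1, hu2⟩ ⟨hv1, hv2⟩
    refine ⟨fun n => ?_, fun T ε hε => ?_⟩
    · have : Measurable fun s => (u s) n + (v s) n := (hu1 n).add (hv1 n)
      simpa using this
    · obtain ⟨N1, h1⟩ := hu2 T (ε / 2) (by linarith)
      obtain ⟨N2, h2⟩ := hv2 T (ε / 2) (by linarith)
      refine ⟨max N1 N2, fun s hs n hn => ?_⟩
      have a1 := h1 s hs n (le_trans (le_max_left _ _) hn)
      have a2 := h2 s hs n (le_trans (le_max_right _ _) hn)
      have : |(u s) n + (v s) n| ≤ ε := by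
        have := abs_add_le ((u s) n) ((v s) n)
        linarith
      simpa using this
  smul_mem' := by
    rintro c u ⟨hu1, hu2⟩
    refine ⟨fun n => ?_, fun T ε hε => ?_⟩
    · simpa using (hu1 n).const_mul c
    · obtain ⟨N1, h1⟩ := hu2 T (ε / (|c| + 1)) (by positivity)
      refine ⟨N1, fun s hs n hn => ?_⟩
      have a1 := h1 s hs n hn
      have hc : 0 ≤ |c| := abs_nonneg c
      have : |c * (u s) n| ≤ ε := by
        rw [abs_mul]
        calc |c| * |(u s) n| ≤ (|c| + 1) * (ε / (|c| + 1)) := by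
              apply mul_le_mul (by linarith) a1 (abs_nonneg _) (by linarith)
          _ = ε := by field_simp
      simpa using this

/-- an input as a function of time -/
def fnI : Inp →ₗ[ℝ] (ℝ≥0 → C0) where
  toFun u := fun s => (u : Bdd) s
  map_add' u v := by ext s n; simp
  map_smul' c u := by ext s n; simp

lemma fnI_apply (u : Inp) (s : ℝ≥0) : fnI u s = (u : Bdd) s := rfl

lemma fnI_adm (u : Inp) : Adm (fnI u) := u.2

lemma norm_fnI_le (u : Inp) (s : ℝ≥0) : ‖fnI u s‖ ≤ ‖u‖ :=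
  lp.norm_apply_le_norm ENNReal.top_ne_zero (u : Bdd) s

lemma isLUB_norm_fnI (u : Inp) : IsLUB (Set.range fun s => ‖fnI u s‖) ‖u‖ :=
  lp.isLUB_norm (u : Bdd)

lemma abs_fnI_le (u : Inp) (s : ℝ≥0) (n : ℕ) : |fnI u s n| ≤ ‖u‖ :=
  (C0.abs_apply_le _ n).trans (norm_fnI_le u s)

/-- build an input from a bounded admissible function -/
def mkI (f : ℝ≥0 → C0) (C : ℝ) (hC : ∀ s, ‖f s‖ ≤ C) (hf : Adm f) : Inp :=
  ⟨⟨f, memℓp_infty ⟨C, by rintro _ ⟨s, rfl⟩; exact hC s⟩⟩, hf⟩

@[simp] lemma fnI_mkI (f : ℝ≥0 → C0) (C : ℝ) (hC : ∀ s, ‖f s‖ ≤ C) (hf : Adm f) :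
    fnI (mkI f C hC hf) = f := rfl

lemma norm_le_of_fnI (u : Inp) {C : ℝ} (h : ∀ s, ‖fnI u s‖ ≤ C) : ‖u‖ ≤ C :=
  (isLUB_norm_fnI u).2 (by rintro _ ⟨s, rfl⟩; exact h s)

lemma fnI_injective : Function.Injective fnI := by
  intro u v h
  apply Subtype.ext
  apply Subtype.ext
  exact h

lemma shift_memI (u : Inp) (τ : ℝ≥0) :
    ∃ v : Inp, (∀ s, fnI v s = fnI u (s + τ)) ∧ ‖v‖ ≤ ‖u‖ := by
  have hadm : Adm fun s => fnI u (s + τ) := by
    refine ⟨fun n => ((fnI_adm u).1 n).comp (measurable_id.add_const τ), fun T ε hε => ?_⟩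
    obtain ⟨N, hN⟩ := (fnI_adm u).2 (T + τ) ε hε
    exact ⟨N, fun s hs n hn => hN _ (by gcongr) n hn⟩
  refine ⟨mkI _ ‖u‖ (fun s => norm_fnI_le u _) hadm, fun s => rfl, ?_⟩
  exact norm_le_of_fnI _ fun s => norm_fnI_le u _

lemma concat_gen (u v : Inp) (t : ℝ≥0) (p : ℝ≥0 → Prop) [DecidablePred p]
    (hp : MeasurableSet {s | p s}) :
    ∃ w : Inp, ∀ s, fnI w s = if p s then fnI u s else fnI v (s - t) := by
  have hadm : Adm fun s => if p s then fnI u s else fnI v (s - t) := by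
    refine ⟨fun n => ?_, fun T ε hε => ?_⟩
    · have : (fun s => (if p s then fnI u s else fnI v (s - t)) n) =
          fun s => if p s then fnI u s n else fnI v (s - t) n := by
        ext s; split_ifs <;> rfl
      rw [this]
      refine Measurable.ite hp ((fnI_adm u).1 n) (((fnI_adm v).1 n).comp ?_)
      exact (continuous_id.sub continuous_const).measurable
    · obtain ⟨N1, h1⟩ := (fnI_adm u).2 T ε hε
      obtain ⟨N2, h2⟩ := (fnI_adm v).2 T ε hε
      refine ⟨max N1 N2, fun s hs n hn => ?_⟩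
      by_cases h : p s
      · simp only [if_pos h]
        exact h1 s hs n (le_trans (le_max_left _ _) hn)
      · simp only [if_neg h]
        exact h2 (s - t) (le_trans tsub_le_self hs) n (le_trans (le_max_right _ _) hn)
  refine ⟨mkI _ (max ‖u‖ ‖v‖) (fun s => ?_) hadm, fun s => rfl⟩
  by_cases h : p s
  · rw [if_pos h]; exact (norm_fnI_le u s).trans (le_max_left _ _)
  · rw [if_neg h]; exact (norm_fnI_le v _).trans (le_max_right _ _)

/-- the integrand of the variation of constants formula -/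
noncomputable def ig (u : Inp) (n : ℕ) (s : ℝ) : ℝ :=
  ((n : ℝ) + 1) * Real.exp (((n : ℝ) + 1) * s) * fnI u (Real.toNNReal s) n

lemma ig_intervalIntegrable (u : Inp) (n : ℕ) (a b : ℝ) :
    IntervalIntegrable (ig u n) volume a b := by
  have hm : Measurable fun s : ℝ => fnI u (Real.toNNReal s) n :=
    ((fnI_adm u).1 n).comp measurable_real_toNNReal
  have h1 : IntervalIntegrable (fun s : ℝ => fnI u (Real.toNNReal s) n) volume a b := by
    refine IntervalIntegrable.mono_fun' (g := fun _ => ‖u‖) intervalIntegrable_const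
      hm.aestronglyMeasurable ?_
    exact Eventually.of_forall fun s => abs_fnI_le u _ n
  exact h1.continuousOn_mul (by fun_prop)

lemma integral_kernel (n : ℕ) (t : ℝ) :
    ∫ s in (0 : ℝ)..t, ((n : ℝ) + 1) * Real.exp (((n : ℝ) + 1) * s) =
      Real.exp (((n : ℝ) + 1) * t) - 1 := by
  have h : ∀ s ∈ uIcc (0 : ℝ) t, HasDerivAt (fun s => Real.exp (((n : ℝ) + 1) * s))
      (((n : ℝ) + 1) * Real.exp (((n : ℝ) + 1) * s)) s := by
    intro s _
    have := ((hasDerivAt_id s).const_mul ((n : ℝ) + 1)).exp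
    simpa [mul_comm] using this
  rw [intervalIntegral.integral_eq_sub_of_hasDerivAt h (Continuous.intervalIntegrable (by fun_prop) _ _)]
  simp

lemma abs_integral_ig_le (u : Inp) (n : ℕ) (t : ℝ≥0) {w : ℝ}
    (h : ∀ s : ℝ≥0, s ≤ t → |fnI u s n| ≤ w) :
    |∫ s in (0 : ℝ)..t, ig u n s| ≤ w * (Real.exp (((n : ℝ) + 1) * t) - 1) := by
  rw [← integral_kernel, ← intervalIntegral.integral_const_mul]
  rw [← Real.norm_eq_abs]
  refine intervalIntegral.norm_integral_le_of_norm_le t.2 (Eventually.of_forall fun s hs => ?_)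
    (Continuous.intervalIntegrable (by fun_prop) _ _)
  have hs' : Real.toNNReal s ≤ t := by
    rw [Real.toNNReal_le_iff_le_coe]; exact hs.2
  have := h _ hs'
  have hpos : 0 ≤ ((n : ℝ) + 1) * Real.exp (((n : ℝ) + 1) * s) := by positivity
  rw [Real.norm_eq_abs, ig, abs_mul, abs_of_nonneg hpos, mul_comm w]
  exact mul_le_mul_of_nonneg_left this hpos

/-- the coordinates of the solution -/
noncomputable def sol (t : ℝ≥0) (x : C0) (u : Inp) (n : ℕ) : ℝ :=
  Real.exp (-(((n : ℝ) + 1) * t)) * (x n + ∫ s in (0 : ℝ)..t, ig u n s)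

lemma abs_sol_le (t : ℝ≥0) (x : C0) (u : Inp) (n : ℕ) {w : ℝ}
    (h : ∀ s : ℝ≥0, s ≤ t → |fnI u s n| ≤ w) :
    |sol t x u n| ≤ Real.exp (-(((n : ℝ) + 1) * t)) * |x n| +
      (1 - Real.exp (-(((n : ℝ) + 1) * t))) * w := by
  have h1 := abs_integral_ig_le u n t h
  have hE : 0 < Real.exp (-(((n : ℝ) + 1) * t)) := Real.exp_pos _
  have hEE : Real.exp (-(((n : ℝ) + 1) * t)) * Real.exp (((n : ℝ) + 1) * t) = 1 := by
    rw [← Real.exp_add]; simp
  rw [sol, abs_mul, abs_of_pos hE]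
  calc Real.exp (-(((n : ℝ) + 1) * t)) * |x n + ∫ s in (0 : ℝ)..t, ig u n s|
      ≤ Real.exp (-(((n : ℝ) + 1) * t)) * (|x n| + w * (Real.exp (((n : ℝ) + 1) * t) - 1)) := by
        apply mul_le_mul_of_nonneg_left _ hE.le
        exact (abs_add_le _ _).trans (by linarith)
    _ = _ := by linear_combination w * hEE

lemma exp_neg_le_one (n : ℕ) (t : ℝ≥0) : Real.exp (-(((n : ℝ) + 1) * t)) ≤ 1 := by
  rw [Real.exp_le_one_iff]
  have : 0 ≤ ((n : ℝ) + 1) * t := by positivity
  linarith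

lemma abs_sol_le' (t : ℝ≥0) (x : C0) (u : Inp) (n : ℕ) {w : ℝ}
    (h : ∀ s : ℝ≥0, s ≤ t → |fnI u s n| ≤ w) : |sol t x u n| ≤ |x n| + w := by
  have h1 := abs_sol_le t x u n h
  have hw : 0 ≤ w := (abs_nonneg _).trans (h 0 zero_le)
  have hE : 0 < Real.exp (-(((n : ℝ) + 1) * t)) := Real.exp_pos _
  have hE1 := exp_neg_le_one n t
  have := abs_nonneg (x n)
  nlinarith

lemma sol_tail (T : ℝ≥0) (x : C0) (u : Inp) {ε : ℝ} (hε : 0 < ε) :
    ∃ N, ∀ t, t ≤ T → ∀ n, N ≤ n → |sol t x u n| ≤ ε := by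
  obtain ⟨N1, h1⟩ := (fnI_adm u).2 T (ε / 2) (by linarith)
  obtain ⟨N2, h2⟩ := x.tail (ε := ε / 2) (by linarith)
  refine ⟨max N1 N2, fun t ht n hn => ?_⟩
  have := abs_sol_le' t x u n (w := ε / 2)
    fun s hs => h1 s (hs.trans ht) n (le_trans (le_max_left _ _) hn)
  have := h2 n (le_trans (le_max_right _ _) hn)
  linarith

lemma sol_tendsto (t : ℝ≥0) (x : C0) (u : Inp) : Tendsto (sol t x u) atTop (𝓝 0) := by
  rw [Metric.tendsto_atTop]
  intro ε hε
  obtain ⟨N, hN⟩ := sol_tail t x u (ε := ε / 2) (by linarith)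
  refine ⟨N, fun n hn => ?_⟩
  have := hN t le_rfl n hn
  rw [Real.dist_eq, sub_zero]
  linarith

/-- the transition map -/
noncomputable def phi (t : ℝ≥0) (x : C0) (u : Inp) : C0 :=
  C0.mk0 (sol t x u) (sol_tendsto t x u)

@[simp] lemma phi_apply (t : ℝ≥0) (x : C0) (u : Inp) (n : ℕ) : phi t x u n = sol t x u n := rfl

lemma continuous_sol (x : C0) (u : Inp) (n : ℕ) : Continuous fun t => sol t x u n := by
  have h1 : Continuous fun t : ℝ => ∫ s in (0 : ℝ)..t, ig u n s :=
    intervalIntegral.continuous_primitive (ig_intervalIntegrable u n) 0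
  have h2 : Continuous fun t : ℝ≥0 => ∫ s in (0 : ℝ)..(t : ℝ), ig u n s :=
    h1.comp NNReal.continuous_coe
  unfold sol
  fun_prop

lemma continuous_phi (x : C0) (u : Inp) : Continuous fun t => phi t x u := by
  rw [continuous_iff_continuousAt]
  intro t₀
  rw [Metric.continuousAt_iff']
  intro ε hε
  obtain ⟨N, hN⟩ := sol_tail (t₀ + 1) x u (ε := ε / 4) (by linarith)
  have h1 : ∀ᶠ t in 𝓝 t₀, ∀ n ∈ Finset.range N, dist (sol t x u n) (sol t₀ x u n) < ε / 2 := by
    rw [Filter.eventually_all_finset]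
    intro n _
    exact (Metric.continuousAt_iff'.1 (continuous_sol x u n).continuousAt) _ (by linarith)
  have h2 : ∀ᶠ t in 𝓝 t₀, t ≤ t₀ + 1 :=
    Iic_mem_nhds (lt_add_one t₀)
  filter_upwards [h1, h2] with t ht1 ht2
  rw [dist_eq_norm]
  refine lt_of_le_of_lt (C0.norm_le _ (C := ε / 2) (by linarith) fun n => ?_) (by linarith)
  have e : (phi t x u - phi t₀ x u) n = sol t x u n - sol t₀ x u n := by simp
  rw [e]
  by_cases hn : n < N
  · have := ht1 n (Finset.mem_range.2 hn)
    rw [Real.dist_eq] at this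
    exact this.le
  · have a1 := hN t ht2 n (not_lt.1 hn)
    have a2 := hN t₀ (le_add_right le_rfl) n (not_lt.1 hn)
    have := abs_sub (sol t x u n) (sol t₀ x u n)
    linarith

lemma phi_zero (x : C0) (u : Inp) : phi 0 x u = x := by
  ext n; simp [sol]

lemma phi_causal (t : ℝ≥0) (x : C0) (u v : Inp) (h : ∀ s, s ≤ t → fnI u s = fnI v s) :
    phi t x u = phi t x v := by
  ext n
  simp only [phi_apply, sol]
  congr 2
  refine intervalIntegral.integral_congr fun s hs => ?_
  rw [uIcc_of_le t.coe_nonneg] at hs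
  have hs' : Real.toNNReal s ≤ t := by
    rw [Real.toNNReal_le_iff_le_coe]; exact hs.2
  simp only [ig, h _ hs']

lemma phi_cocycle (t h : ℝ≥0) (x : C0) (u v : Inp) (hv : ∀ s, fnI v s = fnI u (t + s)) :
    phi h (phi t x u) v = phi (t + h) x u := by
  ext n
  simp only [phi_apply, sol]
  have e1 : ∫ s in (0 : ℝ)..h, ig v n s =
      Real.exp (-(((n : ℝ) + 1) * t)) * ∫ s in (t : ℝ)..(t + h), ig u n s := by
    have : ∫ s in (t : ℝ)..(t + h), ig u n s = ∫ s in (0 : ℝ)..h, ig u n (t + s) := by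
      rw [intervalIntegral.integral_comp_add_left]; simp
    rw [this, ← intervalIntegral.integral_const_mul]
    refine intervalIntegral.integral_congr fun s hs => ?_
    rw [uIcc_of_le h.coe_nonneg] at hs
    have e : Real.toNNReal ((t : ℝ) + s) = t + Real.toNNReal s := by
      rw [Real.toNNReal_add t.coe_nonneg hs.1]; simp
    simp only [ig, hv, e]
    have : Real.exp (((n : ℝ) + 1) * s) =
        Real.exp (-(((n : ℝ) + 1) * t)) * Real.exp (((n : ℝ) + 1) * (t + s)) := by
      rw [← Real.exp_add]; congr 1; ring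
    rw [this]; ring
  have e2 : ∫ s in (0 : ℝ)..((t + h : ℝ≥0) : ℝ), ig u n s =
      (∫ s in (0 : ℝ)..t, ig u n s) + ∫ s in (t : ℝ)..(t + h), ig u n s := by
    rw [intervalIntegral.integral_add_adjacent_intervals (ig_intervalIntegrable u n _ _)
      (ig_intervalIntegrable u n _ _)]
    simp
  have e3 : Real.exp (-(((n : ℝ) + 1) * ((t + h : ℝ≥0) : ℝ))) =
      Real.exp (-(((n : ℝ) + 1) * h)) * Real.exp (-(((n : ℝ) + 1) * t)) := by
    rw [← Real.exp_add]; congr 1; push_cast; ring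
  rw [e1, e2, e3]; ring

/-- the control system -/
noncomputable def sys : ControlSystem C0 C0 Inp where
  fn := fun u => fnI u
  fn_add u v s := by rw [map_add]; rfl
  fn_smul c u s := by rw [map_smul]; rfl
  fn_injective := fnI_injective
  shift_mem := shift_memI
  concat_mem u v t _ := concat_gen u v t (fun s => s ≤ t) measurableSet_Iic
  concat_mem' u v t _ := concat_gen u v t (fun s => s < t) measurableSet_Iio
  φ := phi
  φ_zero := phi_zero
  causal := phi_causal
  continuous_φ := continuous_phi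
  cocycle := phi_cocycle

end Pool.Agent.Lib.MP_cf29c0_an
end

-- part Pool.Agent.Lib.MP_cf29c0_an.Main
section

/-!
The norm is an ISS Lyapunov function in implication form for the diagonal system, and the system
has no ISS Lyapunov function in dissipative form.
-/

open Filter Topology Set MeasureTheory
open scoped NNReal ENNReal

namespace Pool.Agent.Lib.MP_cf29c0_an

lemma isKInf_mul (c : ℝ≥0) (hc : 0 < c) : IsKInf fun r => c * r := by
  refine ⟨⟨⟨by fun_prop, by simp, fun r hr => by positivity⟩, fun a b hab => ?_⟩, ?_⟩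
  · exact mul_lt_mul_of_pos_left hab hc
  · rintro ⟨M, hM⟩
    have h : c * ((M + 1) / c) ≤ M := hM ⟨(M + 1) / c, rfl⟩
    rw [mul_div_cancel₀ _ hc.ne'] at h
    exact absurd h (not_le.2 (lt_add_one M))

lemma exp_neg_le_of_le_one (n : ℕ) (t : ℝ) (h0 : 0 ≤ t) (h1 : t ≤ 1) :
    Real.exp (-(((n : ℝ) + 1) * t)) ≤ 1 - t / 2 := by
  have hn : (0 : ℝ) ≤ n := Nat.cast_nonneg n
  have a : Real.exp (-(((n : ℝ) + 1) * t)) ≤ Real.exp (-t) := by
    apply Real.exp_le_exp.2; nlinarith
  have b : t + 1 ≤ Real.exp t := Real.add_one_le_exp t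
  have c : Real.exp (-t) * Real.exp t = 1 := by rw [← Real.exp_add]; simp
  have d : 0 < Real.exp (-t) := Real.exp_pos _
  have e : Real.exp (-t) * (t + 1) ≤ 1 := by nlinarith
  have f : Real.exp (-t) ≤ 1 - t / 2 := by nlinarith
  linarith

lemma norm_phi_le_of_large (t : ℝ≥0) (ht : t ≤ 1) (x : C0) (u : Inp) (h : 2 * ‖u‖ ≤ ‖x‖) :
    ‖phi t x u‖ ≤ ‖x‖ - t * (‖x‖ / 4) := by
  have ht' : (t : ℝ) ≤ 1 := ht
  have hx := norm_nonneg x
  have ht0 := t.coe_nonneg
  refine C0.norm_le _ (by nlinarith) fun n => ?_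
  have h1 := abs_sol_le t x u n (w := ‖u‖) fun s _ => abs_fnI_le u s n
  have h2 := x.abs_apply_le n
  have hE : 0 < Real.exp (-(((n : ℝ) + 1) * t)) := Real.exp_pos _
  have hE1 := exp_neg_le_one n t
  have hE2 := exp_neg_le_of_le_one n t ht0 ht'
  rw [phi_apply]
  set E := Real.exp (-(((n : ℝ) + 1) * t))
  have a1 : E * |x n| ≤ E * ‖x‖ := mul_le_mul_of_nonneg_left h2 hE.le
  have a2 : (1 - E) * ‖u‖ ≤ (1 - E) * (‖x‖ / 2) :=
    mul_le_mul_of_nonneg_left (by linarith) (by linarith)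
  have a3 : E * (‖x‖ / 2) ≤ (1 - t / 2) * (‖x‖ / 2) :=
    mul_le_mul_of_nonneg_right hE2 (by linarith)
  nlinarith

theorem norm_isImplicationLF : sys.IsImplicationLF fun x => ‖x‖₊ := by
  have hid : IsKInf fun r : ℝ≥0 => r := by simpa using isKInf_mul 1 one_pos
  refine ⟨continuous_nnnorm, fun r => r, fun r => r, fun r => 2 * r, fun r => (1 / 4) * r,
    hid, hid, isKInf_mul 2 two_pos, (isKInf_mul (1 / 4) (by positivity)).1.1,
    fun x => ⟨le_rfl, le_rfl⟩, fun x u h => ?_⟩
  have h' : 2 * ‖u‖ ≤ ‖x‖ := by exact_mod_cast h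
  refine limsup_le_of_le (by isBoundedDefault) ?_
  have h1 : ∀ᶠ t : ℝ≥0 in 𝓝[>] 0, t ≤ 1 :=
    mem_nhdsWithin_of_mem_nhds (Iic_mem_nhds one_pos)
  filter_upwards [h1, self_mem_nhdsWithin] with t ht1 ht0
  have ht0' : (0 : ℝ) < t := ht0
  rw [EReal.coe_le_coe_iff, div_le_iff₀ ht0']
  have := norm_phi_le_of_large t ht1 x u h'
  have e : ((‖sys.φ t x u‖₊ : ℝ≥0) : ℝ) = ‖phi t x u‖ := rfl
  rw [e]
  push_cast
  nlinarith

/-- the unit vectors -/
noncomputable def unitVec (n : ℕ) : C0 :=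
  C0.mk0 (fun m => if m = n then 1 else 0) (by
    refine tendsto_const_nhds.congr' ?_
    filter_upwards [eventually_gt_atTop n] with m hm
    rw [if_neg hm.ne'])

lemma unitVec_apply (n m : ℕ) : unitVec n m = if m = n then 1 else 0 := rfl

lemma norm_unitVec_le (n : ℕ) : ‖unitVec n‖ ≤ 1 := by
  refine C0.norm_le _ zero_le_one fun m => ?_
  rw [unitVec_apply]; split_ifs <;> simp

lemma adm_const (y : C0) : Adm fun _ => y := by
  refine ⟨fun n => measurable_const, fun T ε hε => ?_⟩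
  obtain ⟨N, hN⟩ := y.tail hε
  exact ⟨N, fun _ _ n hn => hN n hn⟩

/-- the constant input -/
noncomputable def constI (y : C0) : Inp := mkI (fun _ => y) ‖y‖ (fun _ => le_rfl) (adm_const y)

lemma fnI_constI (y : C0) (s : ℝ≥0) : fnI (constI y) s = y := rfl

lemma norm_constI_le (y : C0) : ‖constI y‖ ≤ ‖y‖ := norm_le_of_fnI _ fun _ => le_rfl

lemma sol_unit (n : ℕ) (t : ℝ≥0) :
    sol t 0 (constI (unitVec n)) n = 1 - Real.exp (-(((n : ℝ) + 1) * t)) := by
  have h : ∫ s in (0 : ℝ)..t, ig (constI (unitVec n)) n s =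
      Real.exp (((n : ℝ) + 1) * t) - 1 := by
    rw [← integral_kernel]
    congr 1
    ext s
    simp [ig, fnI_constI, unitVec_apply]
  have hEE : Real.exp (-(((n : ℝ) + 1) * t)) * Real.exp (((n : ℝ) + 1) * t) = 1 := by
    rw [← Real.exp_add]; simp
  rw [sol, h]
  simp only [ZeroAtInftyContinuousMap.coe_zero, Pi.zero_apply, zero_add]
  linear_combination hEE

/-- Along a trajectory under a shift invariant input, a bound on the Dini derivative integrates. -/
lemma growth_bound {X U I : Type} [NormedAddCommGroup X] [NormedSpace ℝ X]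
    [NormedAddCommGroup U] [NormedSpace ℝ U] [NormedAddCommGroup I] [NormedSpace ℝ I]
    (S : ControlSystem X U I) (W : X → ℝ≥0) (hW : Continuous W) (u : I)
    (hu : ∀ t s, S.fn u s = S.fn u (t + s)) (c : ℝ) (hc : ∀ x, S.dini W u x ≤ (c : EReal))
    (x : X) (t : ℝ≥0) : (W (S.φ t x u) : ℝ) ≤ W x + c * t := by
  set g : ℝ → ℝ := fun s => (W (S.φ (Real.toNNReal s) x u) : ℝ) with hg
  have hgc : Continuous g :=
    NNReal.continuous_coe.comp (hW.comp ((S.continuous_φ x u).comp continuous_real_toNNReal))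
  have key := image_le_of_liminf_slope_right_le_deriv_boundary (f := g) (a := 0) (b := t)
    hgc.continuousOn (B := fun s => W x + c * s) (B' := fun _ => c)
    (by simp [hg, S.φ_zero]) (by fun_prop)
    (fun s _ => by
      simpa using (((hasDerivAt_id s).const_mul c).const_add (W x : ℝ)).hasDerivWithinAt)
    (fun s hs r hr => by
      have hlt : S.dini W u (S.φ (Real.toNNReal s) x u) < (r : EReal) :=
        lt_of_le_of_lt (hc _) (EReal.coe_lt_coe_iff.2 hr)
      have hev := eventually_lt_of_limsup_lt hlt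
      have htend : Tendsto (fun z : ℝ => Real.toNNReal (z - s)) (𝓝[>] s) (𝓝[>] 0) := by
        refine tendsto_nhdsWithin_iff.2 ⟨?_, ?_⟩
        · have : Continuous fun z : ℝ => Real.toNNReal (z - s) :=
            continuous_real_toNNReal.comp (continuous_id.sub continuous_const)
          have h2 := this.tendsto s
          simp only [sub_self, Real.toNNReal_zero] at h2
          exact h2.mono_left nhdsWithin_le_nhds
        · filter_upwards [self_mem_nhdsWithin] with z hz
          exact Real.toNNReal_pos.2 (sub_pos.2 hz)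
      refine Eventually.frequently ?_
      filter_upwards [htend.eventually hev, self_mem_nhdsWithin] with z hz hz0
      have hz1 : 0 ≤ z - s := (sub_pos.2 hz0).le
      rw [S.cocycle _ _ x u u (hu _), EReal.coe_lt_coe_iff, Real.coe_toNNReal _ hz1,
        ← Real.toNNReal_add hs.1 hz1] at hz
      rw [slope_def_field]
      simpa [hg] using hz)
  have := key (x := t) ⟨t.coe_nonneg, le_rfl⟩
  simpa [hg] using this

theorem not_isDissipativeLF (W : C0 → ℝ≥0) : ¬ sys.IsDissipativeLF W := by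
  rintro ⟨hW, ψ₁, ψ₂, α, σ, hψ₁, hψ₂, -, hσ, hb, hd⟩
  have hW0 : W 0 = 0 := by
    have := (hb 0).2
    rw [nnnorm_zero, hψ₂.1.1.2.1] at this
    exact le_antisymm this zero_le
  set r : ℝ≥0 := 1 / 2 with hr
  have hpos : 0 < ψ₁ r := hψ₁.1.1.2.2 r (by positivity)
  have hall : ∀ n : ℕ, (ψ₁ r : ℝ) ≤ σ 1 * (1 / ((n : ℝ) + 1)) := by
    intro n
    set u := constI (unitVec n) with hu
    have hun : ‖u‖₊ ≤ 1 := by
      have : ‖u‖ ≤ 1 := (norm_constI_le _).trans (norm_unitVec_le n)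
      exact_mod_cast this
    have hc : ∀ x, sys.dini W u x ≤ (((σ 1 : ℝ≥0) : ℝ) : EReal) := by
      intro x
      refine (hd x u).trans (EReal.coe_le_coe_iff.2 ?_)
      have h1 : (σ ‖u‖₊ : ℝ) ≤ σ 1 := by exact_mod_cast hσ.2.monotone hun
      have h2 := (α ‖x‖₊).coe_nonneg
      linarith
    set t : ℝ≥0 := 1 / ((n : ℝ≥0) + 1) with ht
    have ht' : (t : ℝ) = 1 / ((n : ℝ) + 1) := by rw [ht]; push_cast; rfl
    have hgrow := growth_bound sys W hW u (fun _ _ => rfl) _ hc 0 t
    rw [hW0, ht'] at hgrow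
    have hnorm : r ≤ ‖sys.φ t 0 u‖₊ := by
      have h1 := (phi t 0 u).abs_apply_le n
      rw [phi_apply, hu, sol_unit, ht'] at h1
      have e : ((n : ℝ) + 1) * (1 / ((n : ℝ) + 1)) = 1 := by field_simp
      rw [e] at h1
      have h2 := exp_neg_le_of_le_one 0 1 zero_le_one le_rfl
      have h3 : Real.exp (-1) ≤ 1 / 2 := by
        have : -(((0 : ℕ) : ℝ) + 1) * 1 = -1 := by simp
        norm_num at h2 ⊢
        exact h2
      have h4 : (1 / 2 : ℝ) ≤ ‖phi t 0 u‖ := by
        rw [hu]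
        exact le_trans (le_trans (by linarith) (le_abs_self _)) h1
      have : ((r : ℝ≥0) : ℝ) ≤ ((‖sys.φ t 0 u‖₊ : ℝ≥0) : ℝ) := by
        rw [hr]; push_cast; exact h4
      exact_mod_cast this
    have h5 : ψ₁ r ≤ W (sys.φ t 0 u) := (hψ₁.1.2.monotone hnorm).trans (hb _).1
    have h6 : (ψ₁ r : ℝ) ≤ W (sys.φ t 0 u) := by exact_mod_cast h5
    simpa using h6.trans hgrow
  have hlim : Tendsto (fun n : ℕ => (σ 1 : ℝ) * (1 / ((n : ℝ) + 1))) atTop (𝓝 (σ 1 * 0)) :=
    tendsto_one_div_add_atTop_nhds_zero_nat.const_mul _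
  have := ge_of_tendsto' hlim hall
  have hpos' : (0 : ℝ) < ψ₁ r := hpos
  linarith

theorem not_finiteDimensional : ¬ FiniteDimensional ℝ C0 := by
  intro h
  have hli : LinearIndependent ℝ unitVec := by
    rw [linearIndependent_iff']
    intro s g hg i hi
    have h1 : (∑ j ∈ s, g j • unitVec j) i = ∑ j ∈ s, g j * (if i = j then 1 else 0) := by
      classical
      clear hg hi
      induction s using Finset.induction_on with
      | empty => simp
      | insert a s ha ih =>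
        rw [Finset.sum_insert ha, Finset.sum_insert ha, ← ih]
        simp [unitVec_apply]
    rw [hg] at h1
    simpa [hi] using h1.symm
  exact Module.Finite.not_linearIndependent_of_infinite unitVec hli

lemma adm_of_continuous (f : ℝ≥0 → C0) (hf : Continuous f) : Adm f := by
  have hev : ∀ n, Continuous fun y : C0 => y n := by
    intro n
    refine LipschitzWith.continuous (K := 1) (LipschitzWith.of_dist_le_mul fun y z => ?_)
    have := (y - z).abs_apply_le n
    simpa [Real.dist_eq, dist_eq_norm] using this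
  refine ⟨fun n => ((hev n).comp hf).measurable, fun T ε hε => ?_⟩
  have hK : IsCompact (f '' Icc 0 T) := isCompact_Icc.image hf
  obtain ⟨F, hF, hcov⟩ := Metric.totallyBounded_iff.1 hK.totallyBounded (ε / 2) (by linarith)
  choose N hN using fun y : C0 => y.tail (ε := ε / 2) (by linarith)
  obtain ⟨M, hM⟩ := (hF.image N).bddAbove
  refine ⟨M, fun s hs n hn => ?_⟩
  have hmem := hcov ⟨s, ⟨zero_le, hs⟩, rfl⟩
  simp only [mem_iUnion] at hmem
  obtain ⟨y, hy, hd⟩ := hmem
  have h1 := hN y n ((hM ⟨y, hy, rfl⟩).trans hn)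
  have h2 := (f s - y).abs_apply_le n
  rw [Metric.mem_ball, dist_eq_norm] at hd
  have e : (f s - y) n = f s n - y n := by simp
  rw [e] at h2
  have := abs_add_le (f s n - y n) (y n)
  rw [sub_add_cancel] at this
  linarith

theorem mem_of_continuous (f : ℝ≥0 → C0) (hf : Continuous f)
    (hb : BddAbove (Set.range fun s => ‖f s‖)) : ∃ u : Inp, sys.fn u = f := by
  obtain ⟨C, hC⟩ := hb
  exact ⟨mkI f C (fun s => hC ⟨s, rfl⟩) (adm_of_continuous f hf), rfl⟩

theorem phi_formula (t : ℝ≥0) (x : C0) (u : Inp) (n : ℕ) :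
    sys.φ t x u n = Real.exp (-(((n : ℝ) + 1) * t)) * x n +
      ∫ s in (0 : ℝ)..t, ((n : ℝ) + 1) * Real.exp (-(((n : ℝ) + 1) * (t - s))) *
        sys.fn u (Real.toNNReal s) n := by
  have e : sys.φ t x u n = sol t x u n := rfl
  rw [e, sol, mul_add, ← intervalIntegral.integral_const_mul]
  congr 2
  ext s
  have : Real.exp (-(((n : ℝ) + 1) * (t - s))) =
      Real.exp (-(((n : ℝ) + 1) * t)) * Real.exp (((n : ℝ) + 1) * s) := by
    rw [← Real.exp_add]; congr 1; ring
  rw [this, ig]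
  have e2 : sys.fn u = fnI u := rfl
  rw [e2]; ring

theorem fn_measurable (u : Inp) (n : ℕ) : Measurable fun s => sys.fn u s n := (fnI_adm u).1 n

end Pool.Agent.Lib.MP_cf29c0_an
end
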